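import Mathlib

set_option autoImplicit false

namespace Pool.Agent.MP_e3c312_co

open Module

/-- Two families of points with the same Gram matrix in a finite dimensional real inner product
space differ by a linear isometry equivalence. -/
theorem exists_linearIsometryEquiv_of_inner_eq {E : Type*} [NormedAddCommGroup E]
    [InnerProductSpace ℝ E] [FiniteDimensional ℝ E] {ι : Type*} (v w : ι → E)
    (h : ∀ i j, inner ℝ (v i) (v j) = inner ℝ (w i) (w j)) :
    ∃ T : E ≃ₗᵢ[ℝ] E, ∀ i, T (v i) = w i := by
  classical
  let F : (ι →₀ ℝ) →ₗ[ℝ] E := Finsupp.linearCombination ℝ v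
  let G : (ι →₀ ℝ) →ₗ[ℝ] E := Finsupp.linearCombination ℝ w
  have hinner : ∀ c d, inner ℝ (F c) (F d) = inner ℝ (G c) (G d) := by
    intro c d
    simp only [F, G, Finsupp.linearCombination_apply, Finsupp.sum, sum_inner, inner_sum,
      inner_smul_left, inner_smul_right, h]
  have hnorm : ∀ c, ‖F c‖ = ‖G c‖ := by
    intro c
    have h1 := hinner c c
    rw [real_inner_self_eq_norm_sq, real_inner_self_eq_norm_sq] at h1
    exact (sq_eq_sq₀ (norm_nonneg _) (norm_nonneg _)).1 h1
  have hker : LinearMap.ker F ≤ LinearMap.ker G := by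
    intro c hc
    rw [LinearMap.mem_ker] at hc ⊢
    have := hnorm c
    rw [hc, norm_zero] at this
    exact norm_eq_zero.1 this.symm
  let L0 : LinearMap.range F →ₗ[ℝ] E :=
    ((LinearMap.ker F).liftQ G hker).comp F.quotKerEquivRange.symm.toLinearMap
  have hL0 : ∀ c, L0 ⟨F c, LinearMap.mem_range_self F c⟩ = G c := by
    intro c
    have : F.quotKerEquivRange.symm ⟨F c, LinearMap.mem_range_self F c⟩
        = (LinearMap.ker F).mkQ c := by
      rw [LinearEquiv.symm_apply_eq]
      rfl
    simp only [L0, LinearMap.comp_apply, LinearEquiv.coe_coe, this]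
    simp
  let L : LinearMap.range F →ₗᵢ[ℝ] E :=
    { L0 with
      norm_map' := by
        rintro ⟨x, c, rfl⟩
        change ‖L0 ⟨F c, _⟩‖ = _
        rw [hL0 c]
        exact (hnorm c).symm }
  refine ⟨L.extend.toLinearIsometryEquiv rfl, fun i => ?_⟩
  have hv : v i = F (Finsupp.single i 1) := by simp [F]
  have hw : w i = G (Finsupp.single i 1) := by simp [G]
  have hmem : v i ∈ LinearMap.range F := ⟨Finsupp.single i 1, hv.symm⟩
  have h2 : L.extend (v i) = L ⟨v i, hmem⟩ := L.extend_apply ⟨v i, hmem⟩
  change L.extend (v i) = w i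
  rw [h2]
  have h3 : (⟨v i, hmem⟩ : LinearMap.range F) = ⟨F (Finsupp.single i 1),
      LinearMap.mem_range_self F _⟩ := Subtype.ext hv
  rw [h3]
  change L0 _ = _
  rw [hL0, hw]

/-- Two families of points with the same pairwise distances in a finite dimensional real inner
product space differ by an isometry of the space. -/
theorem exists_isometryEquiv_of_dist_eq {E : Type*} [NormedAddCommGroup E]
    [InnerProductSpace ℝ E] [FiniteDimensional ℝ E] {ι : Type*} (v w : ι → E)
    (h : ∀ i j, dist (v i) (v j) = dist (w i) (w j)) :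
    ∃ T : E ≃ᵢ E, ∀ i, T (v i) = w i := by
  rcases isEmpty_or_nonempty ι with hι | ⟨⟨i0⟩⟩
  · exact ⟨IsometryEquiv.refl E, fun i => (hι.false i).elim⟩
  · obtain ⟨T, hT⟩ := exists_linearIsometryEquiv_of_inner_eq (fun i => v i - v i0)
      (fun i => w i - w i0) (by
        intro i j
        have e1 := real_inner_eq_norm_mul_self_add_norm_mul_self_sub_norm_sub_mul_self_div_two
          (v i - v i0) (v j - v i0)
        have e2 := real_inner_eq_norm_mul_self_add_norm_mul_self_sub_norm_sub_mul_self_div_two
          (w i - w i0) (w j - w i0)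
        rw [sub_sub_sub_cancel_right] at e1 e2
        simp only [← dist_eq_norm] at e1 e2
        rw [e1, e2, h i i0, h j i0, h i j])
    refine ⟨((IsometryEquiv.subRight (v i0)).trans T.toIsometryEquiv).trans
      (IsometryEquiv.addRight (w i0)), fun i => ?_⟩
    simp only [IsometryEquiv.trans_apply, IsometryEquiv.subRight_apply,
      LinearIsometryEquiv.coe_toIsometryEquiv, IsometryEquiv.addRight_apply]
    rw [hT i]
    abel

end Pool.Agent.MP_e3c312_co
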