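import Mathlib
import Pool.Agent.MP_e3c312_co.Congruence

set_option autoImplicit false

namespace Pool.Agent.MP_e3c312_co

open Set

/-- The plane. -/
abbrev E2 : Type := EuclideanSpace ℝ (Fin 2)

/-- Congruence of placements of four points. -/
abbrev Rel : (Fin 4 → E2) → (Fin 4 → E2) → Prop :=
  fun q q' => ∃ T : E2 ≃ᵢ E2, ∀ i, T (q i) = q' i

/-- Placement space modulo isometries. -/
abbrev QS : Type := Quot Rel

theorem dist_sq_E2 (x y : E2) : dist x y ^ 2 = (x 0 - y 0) ^ 2 + (x 1 - y 1) ^ 2 := by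
  rw [EuclideanSpace.dist_eq, Real.sq_sqrt (by positivity)]
  simp [Fin.sum_univ_two, Real.dist_eq, sq_abs]

/-- The relation cut out by the vanishing of the Cayley-Menger determinant. -/
def Curve (a b : ℝ) : Prop := 9 * (a - b) ^ 2 = 16 * a * b * (4 - a - b)

/-- The canonical configuration with parameters `a`, `b`. -/
noncomputable def K (a b : ℝ) : Fin 4 → E2 :=
  ![!₂[4, 0], !₂[-4, 0], !₂[1 - a, Real.sqrt (10 * a - a ^ 2)],
    !₂[-1 + b, Real.sqrt (10 * b - b ^ 2)]]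

theorem K01 (a b : ℝ) : dist (K a b 0) (K a b 1) ^ 2 = 64 := by
  rw [dist_sq_E2]; simp [K]; norm_num

theorem K12 (a b : ℝ) (ha : 0 ≤ a) (ha' : a ≤ 10) : dist (K a b 1) (K a b 2) ^ 2 = 25 := by
  rw [dist_sq_E2]; simp [K]
  rw [Real.sq_sqrt (by nlinarith)]; ring

theorem K03 (a b : ℝ) (hb : 0 ≤ b) (hb' : b ≤ 10) : dist (K a b 0) (K a b 3) ^ 2 = 25 := by
  rw [dist_sq_E2]; simp [K]
  rw [Real.sq_sqrt (by nlinarith)]; ring

theorem K02 (a b : ℝ) (ha : 0 ≤ a) (ha' : a ≤ 10) : dist (K a b 0) (K a b 2) ^ 2 = 9 + 16 * a := by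
  rw [dist_sq_E2]; simp [K]
  rw [Real.sq_sqrt (by nlinarith)]; ring

theorem K13 (a b : ℝ) (hb : 0 ≤ b) (hb' : b ≤ 10) : dist (K a b 1) (K a b 3) ^ 2 = 9 + 16 * b := by
  rw [dist_sq_E2]; simp [K]
  rw [Real.sq_sqrt (by nlinarith)]; ring

theorem K23 (a b : ℝ) (ha : 0 ≤ a) (ha' : a ≤ 10) (hb : 0 ≤ b) (hb' : b ≤ 10)
    (h : Curve a b) : dist (K a b 2) (K a b 3) ^ 2 = 4 := by
  rw [dist_sq_E2]; simp [K]
  have h1 : 0 ≤ 10 * a - a ^ 2 := by nlinarith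
  have h2 : 0 ≤ 10 * b - b ^ 2 := by nlinarith
  have hab : 0 ≤ a * b := mul_nonneg ha hb
  have h3 : Real.sqrt (10 * a - a ^ 2) * Real.sqrt (10 * b - b ^ 2) = 3 * (a + b) + a * b := by
    rw [← Real.sqrt_mul h1, Real.sqrt_eq_iff_mul_self_eq (mul_nonneg h1 h2) (by positivity)]
    unfold Curve at h
    nlinarith
  have h4 := Real.sq_sqrt h1
  have h5 := Real.sq_sqrt h2
  nlinarith

theorem curve_of_gram (u1 u2 v1 v2 w1 w2 a b : ℝ)
    (uu : u1 * u1 + u2 * u2 = 64) (vv : v1 * v1 + v2 * v2 = 9 + 16 * a)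
    (ww : w1 * w1 + w2 * w2 = 25) (uv : u1 * v1 + u2 * v2 = 24 + 8 * a)
    (vw : v1 * w1 + v2 * w2 = 15 + 8 * a) (uw : u1 * w1 + u2 * w2 = 40 - 8 * b) :
    Curve a b := by
  have gram : (u1 * u1 + u2 * u2) * (v1 * v1 + v2 * v2) * (w1 * w1 + w2 * w2)
      + 2 * (u1 * v1 + u2 * v2) * (v1 * w1 + v2 * w2) * (u1 * w1 + u2 * w2)
      - (u1 * u1 + u2 * u2) * (v1 * w1 + v2 * w2) ^ 2
      - (v1 * v1 + v2 * v2) * (u1 * w1 + u2 * w2) ^ 2
      - (w1 * w1 + w2 * w2) * (u1 * v1 + u2 * v2) ^ 2 = 0 := by ring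
  rw [uu, vv, ww, uv, vw, uw] at gram
  unfold Curve
  linarith

/-- Planar quadrilaterals with the prescribed side lengths lie on the curve. -/
theorem curve_of_sides (q : Fin 4 → E2) (h01 : dist (q 0) (q 1) ^ 2 = 64)
    (h12 : dist (q 1) (q 2) ^ 2 = 25) (h23 : dist (q 2) (q 3) ^ 2 = 4)
    (h03 : dist (q 0) (q 3) ^ 2 = 25) (a b : ℝ) (h02 : dist (q 0) (q 2) ^ 2 = 9 + 16 * a)
    (h13 : dist (q 1) (q 3) ^ 2 = 9 + 16 * b) : 0 ≤ a ∧ 0 ≤ b ∧ Curve a b := by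
  have d01 : dist (q 0) (q 1) = 8 := by
    have := dist_nonneg (x := q 0) (y := q 1); nlinarith
  have d12 : dist (q 1) (q 2) = 5 := by
    have := dist_nonneg (x := q 1) (y := q 2); nlinarith
  have d03 : dist (q 0) (q 3) = 5 := by
    have := dist_nonneg (x := q 0) (y := q 3); nlinarith
  have t1 := dist_triangle (q 0) (q 2) (q 1)
  have t2 := dist_triangle (q 1) (q 3) (q 0)
  rw [dist_comm (q 2) (q 1)] at t1
  rw [dist_comm (q 1) (q 0), dist_comm (q 3) (q 0)] at t2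
  refine ⟨by nlinarith, by nlinarith, ?_⟩
  rw [dist_sq_E2] at h01 h12 h23 h03 h02 h13
  refine curve_of_gram (q 1 0 - q 0 0) (q 1 1 - q 0 1) (q 2 0 - q 0 0) (q 2 1 - q 0 1)
    (q 3 0 - q 0 0) (q 3 1 - q 0 1) a b ?_ ?_ ?_ ?_ ?_ ?_
  · rw [← h01]; ring
  · rw [← h02]; ring
  · rw [← h03]; ring
  · linear_combination (h01 + h02 - h12) / 2
  · linear_combination (h02 + h03 - h23) / 2
  · linear_combination (h01 + h03 - h13) / 2

end Pool.Agent.MP_e3c312_co
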