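import Mathlib
import Pool.Agent.MP_e3c312_co.FourBar

set_option autoImplicit false

namespace Pool.Agent.MP_e3c312_co

open Set

noncomputable def rr (s : ℝ) : ℝ := Real.sqrt ((4 - |s|) / (25 - 4 * |s|))

noncomputable def pA (s : ℝ) : ℝ := (|s| + 2 * s * rr s) / 2

noncomputable def pB (s : ℝ) : ℝ := (|s| - 2 * s * rr s) / 2

noncomputable def sOf (a b : ℝ) : ℝ :=
  (a - b) * Real.sqrt ((25 - 4 * (a + b)) / (4 - (a + b))) / 2

theorem pA_add_pB (s : ℝ) : pA s + pB s = |s| := by unfold pA pB; ring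

theorem pA_sub_pB (s : ℝ) : pA s - pB s = 2 * s * rr s := by unfold pA pB; ring

theorem rr_nonneg (s : ℝ) : 0 ≤ rr s := Real.sqrt_nonneg _

theorem rr_le (s : ℝ) (hs : |s| < 4) : rr s ≤ 2 / 5 := by
  unfold rr
  rw [Real.sqrt_le_left (by norm_num), div_le_iff₀ (by linarith)]
  have := abs_nonneg s
  nlinarith

theorem rr_sq (s : ℝ) (hs : |s| < 4) : rr s ^ 2 = (4 - |s|) / (25 - 4 * |s|) := by
  unfold rr
  rw [Real.sq_sqrt (div_nonneg (by linarith) (by linarith))]

theorem rr_mul (s : ℝ) (hs : |s| < 4) : rr s ^ 2 * (25 - 4 * |s|) = 4 - |s| := by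
  rw [rr_sq s hs]
  field_simp [show (25 - 4 * |s|) ≠ 0 by linarith]

theorem abs_two_mul_rr (s : ℝ) (hs : |s| < 4) : |2 * s * rr s| ≤ |s| := by
  rw [abs_mul, abs_mul, abs_of_nonneg (rr_nonneg s), abs_two]
  have := rr_le s hs
  have := abs_nonneg s
  nlinarith

theorem pA_nonneg (s : ℝ) (hs : |s| < 4) : 0 ≤ pA s := by
  have := abs_two_mul_rr s hs
  have := neg_abs_le (2 * s * rr s)
  unfold pA
  linarith

theorem pB_nonneg (s : ℝ) (hs : |s| < 4) : 0 ≤ pB s := by
  have := abs_two_mul_rr s hs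
  have := le_abs_self (2 * s * rr s)
  unfold pB
  linarith

theorem curve_iff (a b : ℝ) :
    Curve a b ↔ (a - b) ^ 2 * (25 - 4 * (a + b)) = 4 * (a + b) ^ 2 * (4 - (a + b)) := by
  unfold Curve
  constructor
  · intro h; linear_combination h
  · intro h; linear_combination h

theorem curve_pA_pB (s : ℝ) (hs : |s| < 4) : Curve (pA s) (pB s) := by
  rw [curve_iff, pA_add_pB, pA_sub_pB, sq_abs]
  have := rr_mul s hs
  linear_combination 4 * s ^ 2 * this

theorem sOf_pA_pB (s : ℝ) (hs : |s| < 4) : sOf (pA s) (pB s) = s := by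
  unfold sOf
  rw [pA_add_pB, pA_sub_pB]
  have h1 : (25 - 4 * |s|) / (4 - |s|) = ((4 - |s|) / (25 - 4 * |s|))⁻¹ := by
    rw [inv_div]
  rw [h1, Real.sqrt_inv]
  change 2 * s * rr s * (rr s)⁻¹ / 2 = s
  have h2 : rr s ≠ 0 := by
    unfold rr
    exact Real.sqrt_ne_zero'.2 (div_pos (by linarith) (by linarith))
  field_simp

theorem abs_sOf (a b : ℝ) (ha : 0 ≤ a) (hb : 0 ≤ b) (hab : a + b < 4) (h : Curve a b) :
    |sOf a b| = a + b := by
  rw [curve_iff] at h
  have h4 : 0 < 4 - (a + b) := by linarith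
  have h25 : 0 < 25 - 4 * (a + b) := by linarith
  have hsq : sOf a b ^ 2 = (a + b) ^ 2 := by
    unfold sOf
    rw [div_pow, mul_pow, Real.sq_sqrt (div_nonneg h25.le h4.le)]
    field_simp
    linear_combination h
  rw [← abs_of_nonneg (add_nonneg ha hb)]
  exact (sq_eq_sq_iff_abs_eq_abs _ _).1 hsq

theorem two_sOf_rr (a b : ℝ) (ha : 0 ≤ a) (hb : 0 ≤ b) (hab : a + b < 4) (h : Curve a b) :
    2 * sOf a b * rr (sOf a b) = a - b := by
  unfold rr
  rw [abs_sOf a b ha hb hab h]
  unfold sOf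
  have h1 : (25 - 4 * (a + b)) / (4 - (a + b)) = ((4 - (a + b)) / (25 - 4 * (a + b)))⁻¹ := by
    rw [inv_div]
  rw [h1, Real.sqrt_inv]
  have h2 : Real.sqrt ((4 - (a + b)) / (25 - 4 * (a + b))) ≠ 0 :=
    Real.sqrt_ne_zero'.2 (div_pos (by linarith) (by linarith))
  field_simp

theorem pA_sOf (a b : ℝ) (ha : 0 ≤ a) (hb : 0 ≤ b) (hab : a + b < 4) (h : Curve a b) :
    pA (sOf a b) = a := by
  unfold pA
  rw [two_sOf_rr a b ha hb hab h, abs_sOf a b ha hb hab h]
  ring

theorem pB_sOf (a b : ℝ) (ha : 0 ≤ a) (hb : 0 ≤ b) (hab : a + b < 4) (h : Curve a b) :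
    pB (sOf a b) = b := by
  unfold pB
  rw [two_sOf_rr a b ha hb hab h, abs_sOf a b ha hb hab h]
  ring

theorem continuousOn_rr : ContinuousOn rr {s | |s| < 4} := by
  unfold rr
  apply ContinuousOn.sqrt
  apply ContinuousOn.div
  · exact (continuous_const.sub continuous_abs).continuousOn
  · exact (continuous_const.sub (continuous_const.mul continuous_abs)).continuousOn
  · intro s hs
    have : |s| < 4 := hs
    linarith

theorem continuousOn_pA : ContinuousOn pA {s | |s| < 4} := by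
  unfold pA
  exact (continuous_abs.continuousOn.add ((continuous_const.mul continuous_id).continuousOn.mul
    continuousOn_rr)).div_const 2

theorem continuousOn_pB : ContinuousOn pB {s | |s| < 4} := by
  unfold pB
  exact (continuous_abs.continuousOn.sub ((continuous_const.mul continuous_id).continuousOn.mul
    continuousOn_rr)).div_const 2

/-- The canonical family of configurations. -/
noncomputable def KK (s : ℝ) : Fin 4 → E2 := K (pA s) (pB s)

theorem continuous_K : Continuous (fun x : ℝ × ℝ => K x.1 x.2) := by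
  rw [continuous_pi_iff]
  intro i
  fin_cases i
  · simpa [K] using continuous_const
  · simpa [K] using continuous_const
  · simp only [K]
    apply (PiLp.continuous_toLp 2 _).comp
    rw [continuous_pi_iff]
    intro j
    fin_cases j
    · simp; fun_prop
    · simp; fun_prop
  · simp only [K]
    apply (PiLp.continuous_toLp 2 _).comp
    rw [continuous_pi_iff]
    intro j
    fin_cases j
    · simp; fun_prop
    · simp; fun_prop

theorem continuousOn_pair : ContinuousOn (fun s : ℝ => (pA s, pB s)) {s | |s| < 4} :=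
  continuousOn_pA.prodMk continuousOn_pB

theorem continuousOn_KK' :
    ContinuousOn ((fun x : ℝ × ℝ => K x.1 x.2) ∘ (fun s : ℝ => (pA s, pB s))) {s | |s| < 4} :=
  continuous_K.comp_continuousOn continuousOn_pair

theorem KK_eq : KK = (fun x : ℝ × ℝ => K x.1 x.2) ∘ (fun s : ℝ => (pA s, pB s)) := rfl

theorem continuousOn_KK : ContinuousOn KK {s | |s| < 4} := by
  rw [KK_eq]
  exact continuousOn_KK'

end Pool.Agent.MP_e3c312_co
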