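import Mathlib
import Pool.Agent.MP_e3c312_co.Param

set_option autoImplicit false

namespace Pool.Agent.MP_e3c312_co

open Set

/-- The four-cycle. -/
def G4 : SimpleGraph (Fin 4) where
  Adj i j := j = i + 1 ∨ i = j + 1
  symm := ⟨fun _ _ h => h.symm⟩
  loopless := ⟨fun i h => by revert h; revert i; decide⟩

instance : DecidableRel G4.Adj := fun i j => by unfold G4; infer_instance

noncomputable def aF (q : Fin 4 → E2) : ℝ := (dist (q 0) (q 2) ^ 2 - 9) / 16
noncomputable def bF (q : Fin 4 → E2) : ℝ := (dist (q 1) (q 3) ^ 2 - 9) / 16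

theorem continuous_aF : Continuous aF := by unfold aF; fun_prop
theorem continuous_bF : Continuous bF := by unfold bF; fun_prop

noncomputable def aQ : QS → ℝ := Quot.lift aF (by
  rintro q q' ⟨T, hT⟩; simp only [aF, ← hT]; rw [T.isometry.dist_eq])
noncomputable def bQ : QS → ℝ := Quot.lift bF (by
  rintro q q' ⟨T, hT⟩; simp only [bF, ← hT]; rw [T.isometry.dist_eq])

theorem continuous_aQ : Continuous aQ := continuous_quot_lift _ continuous_aF
theorem continuous_bQ : Continuous bQ := continuous_quot_lift _ continuous_bF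

def OO : Set QS := {x | aQ x + bQ x < 4}

theorem isOpen_OO : IsOpen OO := isOpen_lt (continuous_aQ.add continuous_bQ) continuous_const

def CC : Set QS := {x | ∃ q : Fin 4 → E2, Quot.mk Rel q = x ∧
  ∀ i j, G4.Adj i j → dist (q i) (q j) = dist (K 0 0 i) (K 0 0 j)}

theorem sq_inj_dist (x y : E2) (x' y' : E2) (h : dist x y ^ 2 = dist x' y' ^ 2) :
    dist x y = dist x' y' := (sq_eq_sq₀ dist_nonneg dist_nonneg).1 h

theorem sides_of (q : Fin 4 → E2)
    (h : ∀ i j, G4.Adj i j → dist (q i) (q j) = dist (K 0 0 i) (K 0 0 j)) :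
    dist (q 0) (q 1) ^ 2 = 64 ∧ dist (q 1) (q 2) ^ 2 = 25 ∧ dist (q 2) (q 3) ^ 2 = 4 ∧
      dist (q 0) (q 3) ^ 2 = 25 := by
  refine ⟨?_, ?_, ?_, ?_⟩
  · rw [h 0 1 (by decide), K01]
  · rw [h 1 2 (by decide), K12 0 0 le_rfl (by norm_num)]
  · rw [h 2 3 (by decide), K23 0 0 le_rfl (by norm_num) le_rfl (by norm_num) (by simp [Curve])]
  · rw [h 0 3 (by decide), K03 0 0 le_rfl (by norm_num)]

/-- Families of four points with the same six distances are congruent. -/
theorem rel_of_six (q q' : Fin 4 → E2) (h01 : dist (q 0) (q 1) = dist (q' 0) (q' 1))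
    (h02 : dist (q 0) (q 2) = dist (q' 0) (q' 2)) (h03 : dist (q 0) (q 3) = dist (q' 0) (q' 3))
    (h12 : dist (q 1) (q 2) = dist (q' 1) (q' 2)) (h13 : dist (q 1) (q 3) = dist (q' 1) (q' 3))
    (h23 : dist (q 2) (q 3) = dist (q' 2) (q' 3)) : Rel q q' := by
  apply exists_isometryEquiv_of_dist_eq
  intro i j
  fin_cases i <;> fin_cases j <;>
    simp [h01, h02, h03, h12, h13, h23, dist_comm (q 1) (q 0), dist_comm (q 2) (q 0),
      dist_comm (q 3) (q 0), dist_comm (q 2) (q 1), dist_comm (q 3) (q 1), dist_comm (q 3) (q 2),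
      dist_comm (q' 1) (q' 0), dist_comm (q' 2) (q' 0),
      dist_comm (q' 3) (q' 0), dist_comm (q' 2) (q' 1), dist_comm (q' 3) (q' 1),
      dist_comm (q' 3) (q' 2)]

theorem curve_of_mem (x : QS) (hx : x ∈ CC) :
    0 ≤ aQ x ∧ 0 ≤ bQ x ∧ Curve (aQ x) (bQ x) := by
  obtain ⟨q, rfl, hq⟩ := hx
  obtain ⟨h01, h12, h23, h03⟩ := sides_of q hq
  refine curve_of_sides q h01 h12 h23 h03 _ _ ?_ ?_
  · change _ = 9 + 16 * ((dist (q 0) (q 2) ^ 2 - 9) / 16)
    ring
  · change _ = 9 + 16 * ((dist (q 1) (q 3) ^ 2 - 9) / 16)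
    ring

theorem eq_mk_of_mem (x : QS) (hx : x ∈ CC) (hO : x ∈ OO) :
    x = Quot.mk Rel (K (aQ x) (bQ x)) := by
  obtain ⟨ha, hb, hc⟩ := curve_of_mem x hx
  have hO' : aQ x + bQ x < 4 := hO
  obtain ⟨q, rfl, hq⟩ := hx
  obtain ⟨h01, h12, h23, h03⟩ := sides_of q hq
  have h02 : dist (q 0) (q 2) ^ 2 = 9 + 16 * aQ (Quot.mk Rel q) := by
    change _ = 9 + 16 * ((dist (q 0) (q 2) ^ 2 - 9) / 16)
    ring
  have h13 : dist (q 1) (q 3) ^ 2 = 9 + 16 * bQ (Quot.mk Rel q) := by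
    change _ = 9 + 16 * ((dist (q 1) (q 3) ^ 2 - 9) / 16)
    ring
  apply Quot.sound
  generalize aQ (Quot.mk Rel q) = a at *
  generalize bQ (Quot.mk Rel q) = b at *
  apply rel_of_six <;> apply sq_inj_dist
  · rw [h01, K01]
  · rw [h02, K02 a b ha (by linarith)]
  · rw [h03, K03 a b hb (by linarith)]
  · rw [h12, K12 a b ha (by linarith)]
  · rw [h13, K13 a b hb (by linarith)]
  · rw [h23, K23 a b ha (by linarith) hb (by linarith) hc]

theorem sides_K (a b : ℝ) (ha : 0 ≤ a) (hb : 0 ≤ b) (hab : a + b < 4) (hc : Curve a b) (i j : Fin 4)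
    (hij : G4.Adj i j) : dist (K a b i) (K a b j) = dist (K 0 0 i) (K 0 0 j) := by
  have h01 : dist (K a b 0) (K a b 1) = dist (K 0 0 0) (K 0 0 1) := by
    apply sq_inj_dist; rw [K01, K01]
  have h03 : dist (K a b 0) (K a b 3) = dist (K 0 0 0) (K 0 0 3) := by
    apply sq_inj_dist; rw [K03 a b hb (by linarith), K03 0 0 le_rfl (by norm_num)]
  have h12 : dist (K a b 1) (K a b 2) = dist (K 0 0 1) (K 0 0 2) := by
    apply sq_inj_dist; rw [K12 a b ha (by linarith), K12 0 0 le_rfl (by norm_num)]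
  have h23 : dist (K a b 2) (K a b 3) = dist (K 0 0 2) (K 0 0 3) := by
    apply sq_inj_dist
    rw [K23 a b ha (by linarith) hb (by linarith) hc,
      K23 0 0 le_rfl (by norm_num) le_rfl (by norm_num) (by simp [Curve])]
  fin_cases i <;> fin_cases j <;> first | (exfalso; revert hij; decide) | skip
  · exact h01
  · exact h03
  · exact (dist_comm _ _).trans (h01.trans (dist_comm _ _))
  · exact h12
  · exact (dist_comm _ _).trans (h12.trans (dist_comm _ _))
  · exact h23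
  · exact (dist_comm _ _).trans (h03.trans (dist_comm _ _))
  · exact (dist_comm _ _).trans (h23.trans (dist_comm _ _))

theorem aQ_K (a b : ℝ) (ha : 0 ≤ a) (ha' : a ≤ 10) : aQ (Quot.mk Rel (K a b)) = a := by
  change (dist (K a b 0) (K a b 2) ^ 2 - 9) / 16 = a
  rw [K02 a b ha ha']; ring

theorem bQ_K (a b : ℝ) (hb : 0 ≤ b) (hb' : b ≤ 10) : bQ (Quot.mk Rel (K a b)) = b := by
  change (dist (K a b 1) (K a b 3) ^ 2 - 9) / 16 = b
  rw [K13 a b hb hb']; ring

theorem pA_le (s : ℝ) (hs : |s| < 4) : pA s ≤ 10 := by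
  have := pA_add_pB s
  have := pB_nonneg s hs
  linarith

theorem pB_le (s : ℝ) (hs : |s| < 4) : pB s ≤ 10 := by
  have := pA_add_pB s
  have := pA_nonneg s hs
  linarith

theorem aQ_KK (s : ℝ) (hs : |s| < 4) : aQ (Quot.mk Rel (KK s)) = pA s :=
  aQ_K _ _ (pA_nonneg s hs) (pA_le s hs)

theorem bQ_KK (s : ℝ) (hs : |s| < 4) : bQ (Quot.mk Rel (KK s)) = pB s :=
  bQ_K _ _ (pB_nonneg s hs) (pB_le s hs)

theorem KK_mem_CC (s : ℝ) (hs : |s| < 4) : Quot.mk Rel (KK s) ∈ CC :=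
  ⟨KK s, rfl, fun i j hij => sides_K _ _ (pA_nonneg s hs) (pB_nonneg s hs)
    (by rw [pA_add_pB]; exact hs) (curve_pA_pB s hs) i j hij⟩

theorem KK_mem_OO (s : ℝ) (hs : |s| < 4) : Quot.mk Rel (KK s) ∈ OO := by
  change aQ _ + bQ _ < 4
  rw [aQ_KK s hs, bQ_KK s hs, pA_add_pB]
  exact hs

theorem abs_lt_four_of_mem (b : ↥(Ioo (0 : ℝ) 1)) : |8 * ((b : ℝ) - 1 / 2)| < 4 := by
  have h1 := b.2.1
  have h2 := b.2.2
  rw [abs_lt]
  constructor <;> linarith

/-- The homeomorphism of a neighbourhood of the class of the folded four-bar in its configuration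
space with an open interval. -/
noncomputable def homeo : ↥(OO ∩ CC) ≃ₜ ↥(Ioo (0 : ℝ) 1) where
  toFun x := ⟨sOf (aQ x.1) (bQ x.1) / 8 + 1 / 2, by
    obtain ⟨ha, hb, hc⟩ := curve_of_mem x.1 x.2.2
    have hO : aQ x.1 + bQ x.1 < 4 := x.2.1
    have h := abs_sOf _ _ ha hb hO hc
    rw [← h, abs_lt] at hO
    constructor <;> linarith [hO.1, hO.2]⟩
  invFun b := ⟨Quot.mk Rel (KK (8 * ((b : ℝ) - 1 / 2))),
    KK_mem_OO _ (abs_lt_four_of_mem b), KK_mem_CC _ (abs_lt_four_of_mem b)⟩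
  left_inv x := by
    apply Subtype.ext
    obtain ⟨ha, hb, hc⟩ := curve_of_mem x.1 x.2.2
    have hO : aQ x.1 + bQ x.1 < 4 := x.2.1
    change Quot.mk Rel (KK (8 * (sOf (aQ x.1) (bQ x.1) / 8 + 1 / 2 - 1 / 2))) = x.1
    have e : 8 * (sOf (aQ x.1) (bQ x.1) / 8 + 1 / 2 - 1 / 2) = sOf (aQ x.1) (bQ x.1) := by ring
    rw [e, KK, pA_sOf _ _ ha hb hO hc, pB_sOf _ _ ha hb hO hc]
    exact (eq_mk_of_mem x.1 x.2.2 x.2.1).symm
  right_inv b := by
    apply Subtype.ext
    change sOf (aQ (Quot.mk Rel (KK (8 * ((b : ℝ) - 1 / 2)))))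
      (bQ (Quot.mk Rel (KK (8 * ((b : ℝ) - 1 / 2))))) / 8 + 1 / 2 = b
    rw [aQ_KK _ (abs_lt_four_of_mem b), bQ_KK _ (abs_lt_four_of_mem b),
      sOf_pA_pB _ (abs_lt_four_of_mem b)]
    ring
  continuous_toFun := by
    apply Continuous.subtype_mk
    have h1 : Continuous fun x : ↥(OO ∩ CC) => aQ x.1 := continuous_aQ.comp continuous_subtype_val
    have h2 : Continuous fun x : ↥(OO ∩ CC) => bQ x.1 := continuous_bQ.comp continuous_subtype_val
    unfold sOf
    refine Continuous.add (Continuous.div_const (Continuous.div_const (Continuous.mul (h1.sub h2)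
      (Continuous.sqrt (Continuous.div ?_ ?_ ?_))) _) _) continuous_const
    · exact continuous_const.sub (continuous_const.mul (h1.add h2))
    · exact continuous_const.sub (h1.add h2)
    · intro x
      have hO : aQ x.1 + bQ x.1 < 4 := x.2.1
      linarith
  continuous_invFun := by
    apply Continuous.subtype_mk
    apply continuous_quot_mk.comp
    have h : Continuous fun b : ↥(Ioo (0 : ℝ) 1) => 8 * ((b : ℝ) - 1 / 2) := by fun_prop
    exact continuousOn_KK.comp_continuous h abs_lt_four_of_mem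

end Pool.Agent.MP_e3c312_co
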