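import Mathlib
import Pool.Agent.MP_e3c312_co.Setup

set_option autoImplicit false

namespace Pool.Agent.MP_e3c312_co

open Set

/-- The mirror `x ↦ -x`. -/
noncomputable def mirrorFun (x : E2) : E2 := !₂[-x 0, x 1]

theorem mirrorFun_mirrorFun (x : E2) : mirrorFun (mirrorFun x) = x := by
  ext i
  fin_cases i <;> simp [mirrorFun]

noncomputable def mirror : E2 ≃ᵢ E2 :=
  IsometryEquiv.mk ⟨mirrorFun, mirrorFun, mirrorFun_mirrorFun, mirrorFun_mirrorFun⟩
    (Isometry.of_dist_eq (fun x y => by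
      apply sq_inj_dist
      rw [dist_sq_E2, dist_sq_E2]
      simp [mirrorFun]
      ring))

theorem mirror_apply (x : E2) : mirror x = !₂[-x 0, x 1] := rfl

theorem mirror_mul_mirror : mirror * mirror = 1 := by
  ext x : 1
  exact mirrorFun_mirrorFun x

theorem mirror_ne_one : mirror ≠ 1 := by
  intro h
  have h1 : mirror (!₂[1, 0] : E2) = !₂[1, 0] := by rw [h]; rfl
  rw [mirror_apply] at h1
  have h2 := congrArg (fun x : E2 => x 0) h1
  simp at h2
  norm_num at h2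

/-- The group of order two generated by the mirror. -/
noncomputable def Gam : Subgroup (E2 ≃ᵢ E2) where
  carrier := {g | g = 1 ∨ g = mirror}
  one_mem' := Or.inl rfl
  mul_mem' := by
    rintro a b (rfl | rfl) (rfl | rfl)
    · exact Or.inl (one_mul 1)
    · exact Or.inr (one_mul _)
    · exact Or.inr (mul_one _)
    · exact Or.inl mirror_mul_mirror
  inv_mem' := by
    rintro a (rfl | rfl)
    · exact Or.inl inv_one
    · exact Or.inr (inv_eq_of_mul_eq_one_left mirror_mul_mirror)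

instance : Finite Gam := by
  have h : Set.Finite ({g | g = 1 ∨ g = mirror} : Set (E2 ≃ᵢ E2)) :=
    (Set.finite_singleton mirror).insert 1
  exact h.to_subtype

/-- The transposition of the two pairs. -/
def sg : Equiv.Perm (Fin 4) := Equiv.swap 0 1 * Equiv.swap 2 3

theorem sg_mul_sg : sg * sg = 1 := by decide

open Classical in
noncomputable def th : Gam →* Equiv.Perm (Fin 4) where
  toFun g := if (g : E2 ≃ᵢ E2) = 1 then 1 else sg
  map_one' := by simp
  map_mul' := by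
    rintro ⟨a, (rfl | rfl)⟩ ⟨b, (rfl | rfl)⟩
    · simp
    · simp [mirror_ne_one]
    · simp [mirror_ne_one]
    · simp [mirror_ne_one, mirror_mul_mirror, sg_mul_sg]

theorem th_mirror : th ⟨mirror, Or.inr rfl⟩ = sg := by
  simp [th, mirror_ne_one]

theorem th_cases (g : Gam) : ((g : E2 ≃ᵢ E2) = 1 ∧ th g = 1) ∨
    ((g : E2 ≃ᵢ E2) = mirror ∧ th g = sg) := by
  obtain ⟨g, (rfl | rfl)⟩ := g
  · left; exact ⟨rfl, by simp [th]⟩
  · right; exact ⟨rfl, th_mirror⟩

theorem adj_sg (u v : Fin 4) : G4.Adj u v ↔ G4.Adj (sg u) (sg v) := by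
  revert u v; decide

theorem adj_th (g : Gam) (u v : Fin 4) : G4.Adj u v ↔ G4.Adj (th g u) (th g v) := by
  rcases th_cases g with ⟨_, h⟩ | ⟨_, h⟩ <;> rw [h]
  · simp
  · exact adj_sg u v

theorem mirror_K00 (i : Fin 4) : mirror (K 0 0 i) = K 0 0 (sg i) := by
  rw [mirror_apply]
  have h0 : sg 0 = 1 := by decide
  have h1 : sg 1 = 0 := by decide
  have h2 : sg 2 = 3 := by decide
  have h3 : sg 3 = 2 := by decide
  fin_cases i
  · change _ = K 0 0 (sg 0)
    rw [h0]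
    ext j; fin_cases j <;> simp [K]
  · change _ = K 0 0 (sg 1)
    rw [h1]
    ext j; fin_cases j <;> simp [K]
  · change _ = K 0 0 (sg 2)
    rw [h2]
    ext j; fin_cases j <;> simp [K]
  · change _ = K 0 0 (sg 3)
    rw [h3]
    ext j; fin_cases j <;> simp [K]

theorem mirror_K00' (g : Gam) (i : Fin 4) :
    (g : E2 ≃ᵢ E2) (K 0 0 i) = K 0 0 (th g i) := by
  rcases th_cases g with ⟨h1, h2⟩ | ⟨h1, h2⟩
  · rw [h1, h2]; rfl
  · rw [h1, h2]; exact mirror_K00 i

theorem KK_zero : KK 0 = K 0 0 := by simp [KK, pA, pB]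

theorem lt_four_of_mem {t : ℝ} (ht : t ∈ Icc (0 : ℝ) 1) : |t| < 4 := by
  rw [abs_of_nonneg ht.1]; linarith [ht.2]

theorem rr_anti {s t : ℝ} (hs : 0 ≤ s) (hst : s ≤ t) (ht : t ≤ 1) : rr t ≤ rr s := by
  unfold rr
  apply Real.sqrt_le_sqrt
  rw [abs_of_nonneg hs, abs_of_nonneg (hs.trans hst), div_le_div_iff₀ (by linarith) (by linarith)]
  nlinarith

theorem mul_rr_mono {s t : ℝ} (hs : 0 ≤ s) (hst : s ≤ t) (ht : t ≤ 1) :
    s * rr s ≤ t * rr t := by
  have h1 : 0 ≤ t * rr t := mul_nonneg (hs.trans hst) (rr_nonneg t)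
  apply le_of_sq_le_sq _ h1
  rw [mul_pow, mul_pow, rr_sq s (by rw [abs_of_nonneg hs]; linarith),
    rr_sq t (by rw [abs_of_nonneg (hs.trans hst)]; linarith), abs_of_nonneg hs,
    abs_of_nonneg (hs.trans hst), ← mul_div_assoc, ← mul_div_assoc,
    div_le_div_iff₀ (by linarith) (by linarith)]
  have h2 : s ^ 2 * (4 - s) ≤ t ^ 2 * (4 - t) := by
    have e : t ^ 2 * (4 - t) - s ^ 2 * (4 - s)
        = (t - s) * (t * (4 - t - s) + s * (4 - s)) := by ring
    have e1 : 0 ≤ t * (4 - t - s) := mul_nonneg (hs.trans hst) (by linarith)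
    have e2 : 0 ≤ s * (4 - s) := mul_nonneg hs (by linarith)
    have e3 := mul_nonneg (sub_nonneg.2 hst) (add_nonneg e1 e2)
    linarith
  have h3 : 0 ≤ s ^ 2 * (4 - s) := mul_nonneg (sq_nonneg _) (by linarith)
  have h4 : 25 - 4 * t ≤ 25 - 4 * s := by linarith
  calc s ^ 2 * (4 - s) * (25 - 4 * t) ≤ s ^ 2 * (4 - s) * (25 - 4 * s) :=
        mul_le_mul_of_nonneg_left h4 h3
    _ ≤ t ^ 2 * (4 - t) * (25 - 4 * s) := mul_le_mul_of_nonneg_right h2 (by linarith)

theorem pA_mono {s t : ℝ} (hs : 0 ≤ s) (hst : s ≤ t) (ht : t ≤ 1) : pA s ≤ pA t := by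
  have := mul_rr_mono hs hst ht
  unfold pA
  rw [abs_of_nonneg hs, abs_of_nonneg (hs.trans hst)]
  nlinarith

theorem pB_mono {s t : ℝ} (hs : 0 ≤ s) (hst : s ≤ t) (ht : t ≤ 1) : pB s ≤ pB t := by
  have h1 := rr_anti hs hst ht
  have h2 : rr s ≤ 2 / 5 := rr_le s (by rw [abs_of_nonneg hs]; linarith)
  unfold pB
  rw [abs_of_nonneg hs, abs_of_nonneg (hs.trans hst)]
  nlinarith [mul_nonneg hs (sub_nonneg.2 h1)]

theorem dist_le_of_sq {x y x' y' : E2} (h : dist x y ^ 2 ≤ dist x' y' ^ 2) :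
    dist x y ≤ dist x' y' := le_of_sq_le_sq h dist_nonneg

theorem mono_KK (i j : Fin 4) :
    MonotoneOn (fun t => dist (KK t i) (KK t j)) (Icc (0 : ℝ) 1) := by
  intro s hs t ht hst
  have hs4 := lt_four_of_mem hs
  have ht4 := lt_four_of_mem ht
  have edge : ∀ i j : Fin 4, G4.Adj i j → dist (KK s i) (KK s j) ≤ dist (KK t i) (KK t j) := by
    intro i j hij
    unfold KK
    rw [sides_K _ _ (pA_nonneg s hs4) (pB_nonneg s hs4) (by rw [pA_add_pB]; exact hs4)
      (curve_pA_pB s hs4) i j hij, sides_K _ _ (pA_nonneg t ht4) (pB_nonneg t ht4)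
      (by rw [pA_add_pB]; exact ht4) (curve_pA_pB t ht4) i j hij]
  have d02 : dist (KK s 0) (KK s 2) ≤ dist (KK t 0) (KK t 2) := by
    apply dist_le_of_sq
    unfold KK
    rw [K02 _ _ (pA_nonneg s hs4) (pA_le s hs4), K02 _ _ (pA_nonneg t ht4) (pA_le t ht4)]
    linarith [pA_mono hs.1 hst ht.2]
  have d13 : dist (KK s 1) (KK s 3) ≤ dist (KK t 1) (KK t 3) := by
    apply dist_le_of_sq
    unfold KK
    rw [K13 _ _ (pB_nonneg s hs4) (pB_le s hs4), K13 _ _ (pB_nonneg t ht4) (pB_le t ht4)]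
    linarith [pB_mono hs.1 hst ht.2]
  change dist (KK s i) (KK s j) ≤ dist (KK t i) (KK t j)
  by_cases hij : G4.Adj i j
  · exact edge i j hij
  by_cases he : i = j
  · subst he; simp
  have hc : (i = 0 ∧ j = 2) ∨ (i = 2 ∧ j = 0) ∨ (i = 1 ∧ j = 3) ∨ (i = 3 ∧ j = 1) := by
    revert hij he; revert i j; decide
  rcases hc with ⟨rfl, rfl⟩ | ⟨rfl, rfl⟩ | ⟨rfl, rfl⟩ | ⟨rfl, rfl⟩
  · exact d02
  · rw [dist_comm (KK s 2), dist_comm (KK t 2)]; exact d02
  · exact d13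
  · rw [dist_comm (KK s 3), dist_comm (KK t 3)]; exact d13

theorem injOn_KK : InjOn (fun t => Quot.mk Rel (KK t)) (Icc (0 : ℝ) 1) := by
  intro s hs t ht hst
  have hs4 := lt_four_of_mem hs
  have ht4 := lt_four_of_mem ht
  have h1 : aQ (Quot.mk Rel (KK s)) + bQ (Quot.mk Rel (KK s))
      = aQ (Quot.mk Rel (KK t)) + bQ (Quot.mk Rel (KK t)) := by
    have : Quot.mk Rel (KK s) = Quot.mk Rel (KK t) := hst
    rw [this]
  rw [aQ_KK s hs4, bQ_KK s hs4, aQ_KK t ht4, bQ_KK t ht4, pA_add_pB, pA_add_pB,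
    abs_of_nonneg hs.1, abs_of_nonneg ht.1] at h1
  exact h1

theorem pA_one_ne : pA 1 ≠ pB 1 := by
  intro h
  have h1 := pA_sub_pB 1
  rw [h, sub_self] at h1
  have h2 := rr_sq 1 (by norm_num)
  have h3 : rr 1 = 0 := by linarith
  rw [h3] at h2
  norm_num at h2

theorem pA_one_pos : 0 < pA 1 := by
  have h1 := pA_sub_pB 1
  have h2 := pA_add_pB 1
  have h3 := rr_nonneg 1
  rw [abs_one] at h2
  linarith

end Pool.Agent.MP_e3c312_co
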